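import Pool.Agent.Helper73.Dil.Surf

open Topology Set Filter MeasureTheory Metric

namespace Pool.Agent.Helper73.Dil

universe u

open DilationSurface

namespace LOCL

theorem rat_ne {X : Type u} [TopologicalSpace X] (f f' : X → ℂ) (x : X) : rat f f' x ≠ 0 := by
  unfold rat
  split_ifs with h
  · exact h.choose_spec.choose_spec.1
  · exact one_ne_zero

variable {X : Type u} [TopologicalSpace X] [MeasurableSpace X] [BorelSpace X]
  {D : DilationSurface X}

theorem meas_B1 : MeasurableSet B1 := isOpen_ball.measurableSet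

theorem aem_symm {b : OpenPartialHomeomorph X ℂ} (hb : D.IsBall b) :
    AEMeasurable b.symm (volume.restrict B1) := by
  have h : ContinuousOn b.symm B1 := by
    have := b.continuousOn_symm
    rwa [hb.2] at this
  exact h.aemeasurable meas_B1

theorem aem_rat {ρ : ℂ → ℝ} (h : Measurable (fun z : B1 => ρ z)) :
    AEMeasurable ρ (volume.restrict B1) := by
  classical
  refine ⟨fun z => if hz : z ∈ B1 then ρ z else 0, ?_, ?_⟩
  · exact Measurable.dite (s := B1) (f := fun z : B1 => ρ z) (g := fun _ => 0) h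
      measurable_const meas_B1
  · filter_upwards [ae_restrict_mem meas_B1] with z hz
    simp [hz]

/-- null sets pull back to null sets -/
theorem ae_symm (R : D.Ref) {b : OpenPartialHomeomorph X ℂ} (hb : D.IsBall b)
    (h1 : Measurable (fun z : B1 => rat b (R.ch (b.symm z)) (b.symm z)))
    (h2 : ∀ F : X → ENNReal, Measurable F → ∫⁻ x in b.source, F x ∂(R.mu) =
      ∫⁻ z in B1, F (b.symm z) * ENNReal.ofReal ((rat b (R.ch (b.symm z)) (b.symm z)) ^ 2))
    {p : X → Prop} (hp : ∀ᵐ x ∂(R.mu), p x) : ∀ᵐ z ∂(volume.restrict B1), p (b.symm z) := by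
  have hρ := aem_rat (ρ := fun z => rat b (R.ch (b.symm z)) (b.symm z)) h1
  obtain ⟨N, hN, hNm, hN0⟩ := exists_measurable_superset_of_null (ae_iff.1 hp)
  have hF : Measurable (N.indicator (fun _ => (1 : ENNReal))) := measurable_const.indicator hNm
  have h3 := h2 _ hF
  have h4 : ∫⁻ x in b.source, N.indicator (fun _ => (1 : ENNReal)) x ∂(R.mu) = 0 := by
    refine le_antisymm ?_ bot_le
    calc ∫⁻ x in b.source, N.indicator (fun _ => (1 : ENNReal)) x ∂(R.mu)
        ≤ ∫⁻ x, N.indicator (fun _ => (1 : ENNReal)) x ∂(R.mu) := setLIntegral_le_lintegral _ _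
      _ = 0 := by rw [lintegral_indicator hNm]; simp [hN0]
  rw [h4] at h3
  have h5 : AEMeasurable (fun z => N.indicator (fun _ => (1 : ENNReal)) (b.symm z) *
      ENNReal.ofReal ((rat b (R.ch (b.symm z)) (b.symm z)) ^ 2)) (volume.restrict B1) :=
    (hF.comp_aemeasurable (aem_symm hb)).mul (hρ.pow_const 2).ennreal_ofReal
  have h6 := (lintegral_eq_zero_iff' h5).1 h3.symm
  filter_upwards [h6] with z hz
  by_contra hcon
  have hzN : b.symm z ∈ N := hN hcon
  have h7 : ENNReal.ofReal ((rat b (R.ch (b.symm z)) (b.symm z)) ^ 2) = 0 := by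
    simpa [hzN] using hz
  have h8 : 0 < (rat b (R.ch (b.symm z)) (b.symm z)) ^ 2 := by
    have := rat_ne b (R.ch (b.symm z)) (b.symm z)
    positivity
  rw [ENNReal.ofReal_eq_zero] at h7
  linarith

theorem loc_congr (R : D.Ref) {b : OpenPartialHomeomorph X ℂ} (hb : D.IsBall b)
    (h1 : Measurable (fun z : B1 => rat b (R.ch (b.symm z)) (b.symm z)))
    (h2 : ∀ F : X → ENNReal, Measurable F → ∫⁻ x in b.source, F x ∂(R.mu) =
      ∫⁻ z in B1, F (b.symm z) * ENNReal.ofReal ((rat b (R.ch (b.symm z)) (b.symm z)) ^ 2))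
    {f g : X → ℂ} (hfg : f =ᵐ[R.mu] g) : R.loc b f =ᵐ[volume.restrict B1] R.loc b g := by
  filter_upwards [ae_symm R hb h1 h2 hfg] with z hz
  simp only [Ref.loc]
  rw [hz]

theorem loc_aesm (R : D.Ref) {b : OpenPartialHomeomorph X ℂ} (hb : D.IsBall b)
    (h1 : Measurable (fun z : B1 => rat b (R.ch (b.symm z)) (b.symm z)))
    {f : X → ℂ} (hf : StronglyMeasurable f) :
    AEStronglyMeasurable (R.loc b f) (volume.restrict B1) := by
  have h3 : AEMeasurable (fun z => (rat b (R.ch (b.symm z)) (b.symm z) : ℂ))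
      (volume.restrict B1) := Complex.measurable_ofReal.comp_aemeasurable
      (aem_rat (ρ := fun z => rat b (R.ch (b.symm z)) (b.symm z)) h1)
  exact (h3.mul (hf.measurable.comp_aemeasurable (aem_symm hb))).aestronglyMeasurable

theorem loc_lint (R : D.Ref) {b : OpenPartialHomeomorph X ℂ}
    (h2 : ∀ F : X → ENNReal, Measurable F → ∫⁻ x in b.source, F x ∂(R.mu) =
      ∫⁻ z in B1, F (b.symm z) * ENNReal.ofReal ((rat b (R.ch (b.symm z)) (b.symm z)) ^ 2))
    {f : X → ℂ} (hf : StronglyMeasurable f) :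
    ∫⁻ z in B1, ‖R.loc b f z‖ₑ ^ 2 = ∫⁻ x in b.source, ‖f x‖ₑ ^ 2 ∂(R.mu) := by
  rw [h2 (fun x => ‖f x‖ₑ ^ 2) (hf.measurable.enorm.pow_const 2)]
  refine lintegral_congr fun z => ?_
  simp only [Ref.loc]
  rw [enorm_mul, mul_pow, mul_comm]
  congr 1
  rw [← ofReal_norm, Complex.norm_real, ← ENNReal.ofReal_pow (norm_nonneg _), Real.norm_eq_abs,
    sq_abs]

theorem loc_eLp (R : D.Ref) {b : OpenPartialHomeomorph X ℂ}
    (h2 : ∀ F : X → ENNReal, Measurable F → ∫⁻ x in b.source, F x ∂(R.mu) =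
      ∫⁻ z in B1, F (b.symm z) * ENNReal.ofReal ((rat b (R.ch (b.symm z)) (b.symm z)) ^ 2))
    {f : X → ℂ} (hf : StronglyMeasurable f) :
    eLpNorm (R.loc b f) 2 (volume.restrict B1) = eLpNorm f 2 ((R.mu).restrict b.source) := by
  rw [eLpNorm_eq_lintegral_rpow_enorm_toReal (by norm_num) (by norm_num),
    eLpNorm_eq_lintegral_rpow_enorm_toReal (by norm_num) (by norm_num)]
  simp only [ENNReal.toReal_ofNat, ENNReal.rpow_ofNat]
  rw [loc_lint R h2 hf]

theorem memLp_loc (R : D.Ref) {b : OpenPartialHomeomorph X ℂ} (hb : D.IsBall b)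
    (h1 : Measurable (fun z : B1 => rat b (R.ch (b.symm z)) (b.symm z)))
    (h2 : ∀ F : X → ENNReal, Measurable F → ∫⁻ x in b.source, F x ∂(R.mu) =
      ∫⁻ z in B1, F (b.symm z) * ENNReal.ofReal ((rat b (R.ch (b.symm z)) (b.symm z)) ^ 2))
    (c : R.H) : MemLp (R.loc b c) 2 (volume.restrict B1) := by
  refine ⟨loc_aesm R hb h1 (Lp.stronglyMeasurable c), ?_⟩
  rw [loc_eLp R h2 (Lp.stronglyMeasurable c)]
  exact lt_of_le_of_lt (eLpNorm_restrict_le _ _ _ _) (Lp.memLp c).2

end LOCL

open LOCL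

theorem sb_LOCL (hM : SB_MEAS.{u}) : SB_LOCL.{u} := by
  intro X _ _ _ _ _ D R
  obtain ⟨-, -, -, -, -, hT⟩ := hM X D R
  refine ⟨fun b hb => ?_, fun f g h => ?_⟩
  · obtain ⟨h1, h2⟩ := hT b hb
    have hadd : ∀ c c' : R.H, (memLp_loc R hb h1 h2 (c + c')).toLp _ =
        (memLp_loc R hb h1 h2 c).toLp _ + (memLp_loc R hb h1 h2 c').toLp _ := by
      intro c c'
      rw [← MemLp.toLp_add, MemLp.toLp_eq_toLp_iff]
      refine (loc_congr R hb h1 h2 (Lp.coeFn_add c c')).trans (Eventually.of_forall fun z => ?_)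
      simp only [Ref.loc, Pi.add_apply]
      ring
    have hsmul : ∀ (a : ℂ) (c : R.H), (memLp_loc R hb h1 h2 (a • c)).toLp _ =
        a • (memLp_loc R hb h1 h2 c).toLp _ := by
      intro a c
      rw [← MemLp.toLp_const_smul, MemLp.toLp_eq_toLp_iff]
      refine (loc_congr R hb h1 h2 (Lp.coeFn_smul a c)).trans (Eventually.of_forall fun z => ?_)
      simp only [Ref.loc, Pi.smul_apply, smul_eq_mul]
      ring
    let L0 : R.H →ₗ[ℂ] Lp ℂ 2 (volume.restrict B1) :=
      { toFun := fun c => (memLp_loc R hb h1 h2 c).toLp _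
        map_add' := hadd
        map_smul' := hsmul }
    have hnorm : ∀ c : R.H, ‖L0 c‖ = (eLpNorm c 2 ((R.mu).restrict b.source)).toReal := by
      intro c
      change ‖(memLp_loc R hb h1 h2 c).toLp _‖ = _
      rw [Lp.norm_toLp, loc_eLp R h2 (Lp.stronglyMeasurable c)]
    have hle : ∀ c : R.H, ‖L0 c‖ ≤ 1 * ‖c‖ := by
      intro c
      rw [hnorm, one_mul, Lp.norm_def]
      exact ENNReal.toReal_mono (Lp.memLp c).2.ne (eLpNorm_restrict_le _ _ _ _)
    refine ⟨L0.mkContinuous 1 hle, fun c => ?_, fun c => ?_, fun c f hcf => ?_⟩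
    · exact MemLp.coeFn_toLp (memLp_loc R hb h1 h2 c)
    · have h3 : ‖(L0.mkContinuous 1 hle) c‖ = (eLpNorm c 2 ((R.mu).restrict b.source)).toReal :=
        hnorm c
      rw [h3]
      have hm : MemLp c 2 ((R.mu).restrict b.source) := (Lp.memLp c).restrict _
      have h4 := hm.eLpNorm_eq_integral_rpow_norm (by norm_num) (by norm_num)
      rw [h4]
      simp only [ENNReal.toReal_ofNat]
      have h5 : (∫ a in b.source, ‖c a‖ ^ (2 : ℝ) ∂(R.mu)) =
          ∫ a in b.source, ‖c a‖ ^ 2 ∂(R.mu) := by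
        refine integral_congr_ae (Eventually.of_forall fun a => ?_)
        simp
      rw [h5]
      have h6 : 0 ≤ ∫ a in b.source, ‖c a‖ ^ 2 ∂(R.mu) := integral_nonneg fun a => by positivity
      rw [ENNReal.toReal_ofReal (by positivity), ← Real.rpow_natCast, ← Real.rpow_mul h6]
      norm_num
    · exact loc_congr R hb h1 h2 hcf
  · rw [Ref.mu, Filter.EventuallyEq, Measure.ae_sum_iff]
    intro n
    refine ae_restrict_of_ae ?_
    have hb := R.ball n
    have h3 := h _ hb
    have h4 : ∀ᵐ z ∂(volume.restrict B1), f ((R.B n).symm z) = g ((R.B n).symm z) := by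
      filter_upwards [h3] with z hz
      have := rat_ne (R.B n) (R.ch ((R.B n).symm z)) ((R.B n).symm z)
      simp only [Ref.loc] at hz
      exact mul_left_cancel₀ (by exact_mod_cast this) hz
    obtain ⟨N, hN, hNm, hN0⟩ := exists_measurable_superset_of_null (ae_iff.1 h4)
    have hsrc : MeasurableSet (R.B n).source := (R.B n).open_source.measurableSet
    have hcont : Measurable (fun x : (R.B n).source => (R.B n) x) :=
      ((R.B n).continuousOn.domRestrict).measurable
    have hSm : MeasurableSet ((R.B n).source ∩ (R.B n) ⁻¹' N) := by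
      have h5 := (MeasurableEmbedding.subtype_coe hsrc).measurableSet_image.2 (hcont hNm)
      have h6 : (Subtype.val '' ((fun x : (R.B n).source => (R.B n) x) ⁻¹' N) : Set X) =
          (R.B n).source ∩ (R.B n) ⁻¹' N := by
        ext x
        constructor
        · rintro ⟨y, hy, rfl⟩
          exact ⟨y.2, hy⟩
        · rintro ⟨h7, h8⟩
          exact ⟨⟨x, h7⟩, h8, rfl⟩
      rw [← h6]
      exact h5
    rw [ae_iff]
    refine measure_mono_null (t := ((R.B n).source ∩ (R.B n) ⁻¹' N) ∪ ((R.B n).source)ᶜ) ?_ ?_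
    · intro x hx
      by_cases hxs : x ∈ (R.B n).source
      · left
        refine ⟨hxs, hN ?_⟩
        simp only [mem_ofPred_eq] at hx ⊢
        rwa [(R.B n).left_inv hxs]
      · right; exact hxs
    · have ham : AEMeasurable (R.B n).symm (volume.restrict (R.B n).target) := by
        rw [hb.2]; exact aem_symm hb
      rw [cmeas, Measure.map_apply_of_aemeasurable ham (hSm.union hsrc.compl), hb.2]
      refine measure_mono_null (t := N ∪ B1ᶜ) ?_ ?_
      · intro z hz
        by_cases hzB : z ∈ B1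
        · left
          have hzt : z ∈ (R.B n).target := by rw [hb.2]; exact hzB
          rcases hz with hz | hz
          · have := hz.2
            rwa [mem_preimage, (R.B n).right_inv hzt] at this
          · exact absurd ((R.B n).map_target hzt) hz
        · right; exact hzB
      · refine measure_union_null hN0 ?_
        rw [Measure.restrict_apply meas_B1.compl]
        simp

end Pool.Agent.Helper73.Dil
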